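import Mathlib
import Pool.Agent.H77.TF.Stm
import Pool.Agent.H77.TF.Pri

/-!
# Project TF, module FUL: vector fields tangent to all hyperplanes
-/

set_option autoImplicit false

open MvPolynomial Module

namespace Pool.Agent.H10.TF

open Pool.Agent.H77.TF

noncomputable section

theorem ful (hS : S_SAI) (hM : S_MDT) : S_FUL := by
  intro K _ _ l v hv
  classical
  have hfin : Finite (Projectivization K (Fin l → K)) := by
    refine Finite.of_surjective
      (fun x : {x : Fin l → K // x ≠ 0} => Projectivization.mk K x.1 x.2) ?_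
    intro p
    exact ⟨⟨p.rep, p.rep_nonzero⟩, p.mk_rep⟩
  let _ : Fintype (Projectivization K (Fin l → K)) := Fintype.ofFinite _
  let A : Projectivization K (Fin l → K) → Fin l → K := fun p => p.rep
  have hA : Simple A := by
    refine ⟨fun p => p.rep_nonzero, fun p q hpq c h => hpq ?_⟩
    rw [← p.mk_rep, ← q.mk_rep, Projectivization.mk_eq_mk_iff']
    exact ⟨c, h.symm⟩
  obtain ⟨c, hc, hdet⟩ := hM K l
  have hmem : ∀ k : Fin l, frob K l k ∈ LD A := fun k p => evl_frob_dvd _ _
  rw [finprod_eq_prod_of_fintype] at hdet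
  obtain ⟨b, hb⟩ := hS K l _ A hA (fun k => frob K l k) c hc hmem hdet
  have hv' : v ∈ LD A := fun p => hv _ p.rep_nonzero
  refine ⟨fun k => b.repr ⟨v, hv'⟩ k, ?_⟩
  have h1 := congrArg (fun x : LD A => (x : Fin l → MvPolynomial (Fin l) K))
    (b.sum_repr ⟨v, hv'⟩)
  simp only [AddSubmonoidClass.coe_finsetSum] at h1
  refine h1.symm.trans (Finset.sum_congr rfl fun k _ => ?_)
  rw [← hb k]
  rfl

end

end Pool.Agent.H10.TF
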