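import Mathlib
import Pool.Agent.H77.TF.Stm

/-!
# Project TF, module GRD: a free arrangement has a homogeneous basis
-/

set_option autoImplicit false

open MvPolynomial Module

namespace Pool.Agent.H10.TF

open Pool.Agent.H77.TF

noncomputable section

variable {K : Type} [Field K] {l : ℕ} {ν : Type}

/-- the homogeneous component of a vector field -/
def hc (d : ℕ) (v : Fin l → MvPolynomial (Fin l) K) : Fin l → MvPolynomial (Fin l) K :=
  fun i => homogeneousComponent d (v i)

lemma evl_hc (a : Fin l → K) (d : ℕ) (v : Fin l → MvPolynomial (Fin l) K) :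
    evl a (hc d v) = homogeneousComponent d (evl a v) := by
  unfold evl hc
  rw [map_sum]
  exact Finset.sum_congr rfl fun i _ => (homogeneousComponent_C_mul _ _ _).symm

lemma lin_hom (a : Fin l → K) : (lin a).IsHomogeneous 1 := by
  unfold lin
  refine IsHomogeneous.sum _ _ _ fun i _ => ?_
  have := (isHomogeneous_C (Fin l) (a i)).mul (isHomogeneous_X K i)
  rwa [zero_add] at this

lemma dvd_hc {p : MvPolynomial (Fin l) K} {n : ℕ} (hp : p.IsHomogeneous n)
    {f : MvPolynomial (Fin l) K} (h : p ∣ f) (d : ℕ) : p ∣ homogeneousComponent d f := by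
  obtain ⟨g, rfl⟩ := h
  have h1 : p * g = ∑ j ∈ Finset.range (g.totalDegree + 1), p * homogeneousComponent j g := by
    rw [← Finset.mul_sum, sum_homogeneousComponent]
  rw [h1, map_sum]
  refine Finset.dvd_sum fun j _ => ?_
  have h2 : p * homogeneousComponent j g ∈ homogeneousSubmodule (Fin l) K (n + j) :=
    hp.mul (homogeneousComponent_isHomogeneous j g)
  rw [homogeneousComponent_of_mem h2]
  split_ifs
  · exact dvd_mul_right _ _
  · exact dvd_zero _

lemma hc_mem {A : ν → Fin l → K} {v : Fin l → MvPolynomial (Fin l) K} (hv : v ∈ LD A) (d : ℕ) :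
    hc d v ∈ LD A := by
  intro i
  rw [evl_hc]
  exact dvd_hc (lin_hom _) (hv i) d

lemma sum_hc {v : Fin l → MvPolynomial (Fin l) K} {N : ℕ} (hN : ∀ i, (v i).totalDegree < N) :
    ∑ d ∈ Finset.range N, hc d v = v := by
  funext i
  rw [Finset.sum_apply]
  unfold hc
  conv_rhs => rw [← sum_homogeneousComponent (v i)]
  symm
  apply Finset.sum_subset
  · intro d hd
    rw [Finset.mem_range] at hd ⊢
    have := hN i
    omega
  · intro d _ hd
    rw [Finset.mem_range] at hd
    exact homogeneousComponent_eq_zero _ _ (by omega)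

/-! ### The rank -/

lemma lin_ne {a : Fin l → K} (ha : a ≠ 0) : lin a ≠ 0 := by
  intro h
  apply ha
  funext i
  have h1 := congrArg (coeff (Finsupp.single i 1)) h
  unfold lin at h1
  rw [coeff_sum, coeff_zero, Finset.sum_eq_single i] at h1
  · simpa using h1
  · intro j _ hj
    have hne : (Finsupp.single j 1 : Fin l →₀ ℕ) ≠ Finsupp.single i 1 := fun h =>
      hj ((Finsupp.single_left_inj one_ne_zero).1 h)
    rw [coeff_C_mul, coeff_X, if_neg hne, mul_zero]
  · intro h; exact absurd (Finset.mem_univ i) h

lemma finrank_LD [Fintype ν] {A : ν → Fin l → K} (hA : Simple A) :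
    Module.rank (MvPolynomial (Fin l) K) (LD A) = l := by
  set Q : MvPolynomial (Fin l) K := ∏ i, lin (A i) with hQ
  have hQ0 : Q ≠ 0 := Finset.prod_ne_zero_iff.mpr fun i _ => lin_ne (hA.1 i)
  apply le_antisymm
  · have h1 := Submodule.rank_le (LD A)
    rw [rank_fun', Fintype.card_fin] at h1
    exact h1
  · let φ : (Fin l → MvPolynomial (Fin l) K) →ₗ[MvPolynomial (Fin l) K] (LD A) :=
      LinearMap.codRestrict (LD A) (Q • LinearMap.id) (by
        intro v i
        have : evl (A i) ((Q • LinearMap.id (R := MvPolynomial (Fin l) K)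
            (M := Fin l → MvPolynomial (Fin l) K)) v) = Q * evl (A i) v := by
          simp only [evl, Finset.mul_sum, LinearMap.smul_apply, LinearMap.id_apply, Pi.smul_apply,
            smul_eq_mul]
          exact Finset.sum_congr rfl fun j _ => by ring
        rw [this]
        exact dvd_mul_of_dvd_left (Finset.dvd_prod_of_mem _ (Finset.mem_univ i)) _)
    have hφ : Function.Injective φ := by
      rw [injective_iff_map_eq_zero]
      intro v hv
      have h1 : Q • v = 0 := congrArg Subtype.val hv
      rcases smul_eq_zero.mp h1 with h | h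
      · exact absurd h hQ0
      · exact h
    have h2 := LinearMap.rank_le_of_injective φ hφ
    rw [rank_fun', Fintype.card_fin] at h2
    exact h2

/-! ### Homogeneous products -/

lemma unit_of_hom {D β : MvPolynomial (Fin l) K} {E : ℕ} (h : (D * β).IsHomogeneous E)
    (hβ : β ≠ 0) (hD : coeff 0 D ≠ 0) : IsUnit D := by
  classical
  have hD0 : D ≠ 0 := by rintro rfl; simp at hD
  obtain ⟨m, hm, hmin⟩ := Finset.exists_min_image β.support (fun m => Finsupp.degree m)
    (support_nonempty.mpr hβ)
  have h1 : coeff m (D * β) = coeff 0 D * coeff m β := by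
    rw [coeff_mul, Finset.sum_eq_single (0, m)]
    · rintro ⟨a, b⟩ hab hne
      rw [Finset.HasAntidiagonal.mem_antidiagonal] at hab
      by_cases hb : b ∈ β.support
      · exfalso
        have h2 := hmin b hb
        simp only at h2 hab
        have h3 : Finsupp.degree m = Finsupp.degree a + Finsupp.degree b := by
          rw [← hab, map_add]
        have h4 : Finsupp.degree a = 0 := by omega
        have h5 : a = 0 := (Finsupp.degree_eq_zero_iff a).mp h4
        apply hne
        rw [h5, zero_add] at hab
        rw [h5, hab]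
      · rw [notMem_support_iff.mp hb, mul_zero]
    · intro h2
      exact absurd (Finset.HasAntidiagonal.mem_antidiagonal.mpr (zero_add m)) h2
  have h2 : coeff m (D * β) ≠ 0 := by
    rw [h1]
    exact mul_ne_zero hD (mem_support_iff.mp hm)
  have h3 : Finsupp.degree m = E := by
    by_contra hne
    exact h2 (h.coeff_eq_zero hne)
  have h4 : Finsupp.degree m ≤ β.totalDegree := by
    have := le_totalDegree hm
    exact this
  have h5 : (D * β).totalDegree = E := h.totalDegree (mul_ne_zero hD0 hβ)
  rw [totalDegree_mul_of_isDomain hD0 hβ] at h5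
  have h6 : D.totalDegree = 0 := by omega
  rw [totalDegree_eq_zero_iff_eq_C] at h6
  rw [h6]
  exact (isUnit_iff_ne_zero.mpr hD).map C

/-! ### The homogeneous basis -/

theorem grd : S_GRD := by
  intro K _ l ν _ A hA hfree
  classical
  have hr := finrank_LD hA
  have : Module.Finite (MvPolynomial (Fin l) K) (LD A) := Module.finite_of_rank_eq_nat hr
  let b : Basis (Fin l) (MvPolynomial (Fin l) K) (LD A) :=
    Module.finBasisOfFinrankEq _ _ (Module.finrank_eq_of_rank_eq hr)
  obtain ⟨N, hN⟩ : ∃ N : ℕ, ∀ j i, ((b j : Fin l → MvPolynomial (Fin l) K) i).totalDegree < N := by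
    refine ⟨∑ j, ∑ i, ((b j : Fin l → MvPolynomial (Fin l) K) i).totalDegree + 1, ?_⟩
    intro j i
    have h1 := Finset.single_le_sum
      (f := fun i => ((b j : Fin l → MvPolynomial (Fin l) K) i).totalDegree)
      (fun _ _ => Nat.zero_le _) (Finset.mem_univ i)
    have h2 := Finset.single_le_sum
      (f := fun j => ∑ i, ((b j : Fin l → MvPolynomial (Fin l) K) i).totalDegree)
      (fun _ _ => Nat.zero_le _) (Finset.mem_univ j)
    omega
  let w : Fin l → ℕ → LD A := fun j d => ⟨hc d (b j), hc_mem (b j).2 d⟩
  have hw : ∀ j, ∑ d ∈ Finset.range N, w j d = b j := by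
    intro j
    apply Subtype.ext
    rw [AddSubmonoidClass.coe_finsetSum]
    exact sum_hc (hN j)
  let c : Fin l → ℕ → Fin l → MvPolynomial (Fin l) K := fun j d k => b.repr (w j d) k
  have hc1 : ∀ j, ∑ d ∈ Finset.range N, c j d = Pi.single j 1 := by
    intro j
    funext k
    rw [Finset.sum_apply]
    have h1 : ∑ d ∈ Finset.range N, c j d k = b.repr (∑ d ∈ Finset.range N, w j d) k := by
      rw [map_sum, Finsupp.finsetSum_apply]
    rw [h1, hw, Basis.repr_self, Finsupp.single_apply, Pi.single_apply]
    simp only [eq_comm]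
  -- the expansion of the determinant of the identity matrix
  have hdet : ∑ f ∈ Fintype.piFinset (fun _ : Fin l => Finset.range N),
      (Matrix.of fun j k => c j (f j) k).det = 1 := by
    have h1 := (Matrix.detRowAlternating (n := Fin l)
      (R := MvPolynomial (Fin l) K)).toMultilinearMap.map_sum_finset
      (A := fun _ : Fin l => Finset.range N) (fun j d => c j d)
    simp only [hc1] at h1
    have h2 : (Matrix.detRowAlternating (n := Fin l) (R := MvPolynomial (Fin l) K)).toMultilinearMap
        (fun j => Pi.single j 1) = 1 := by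
      show Matrix.det (fun j => Pi.single j 1) = 1
      have h3 : (fun j : Fin l => (Pi.single j 1 : Fin l → MvPolynomial (Fin l) K)) =
          (1 : Matrix (Fin l) (Fin l) (MvPolynomial (Fin l) K)) := by
        refine Matrix.ext fun j k => ?_
        rw [Matrix.one_apply, Pi.single_apply]
        simp only [eq_comm]
      rw [h3, Matrix.det_one]
    rw [h2] at h1
    exact h1.symm
  obtain ⟨f, hf⟩ : ∃ f : Fin l → ℕ, coeff 0 (Matrix.of fun j k => c j (f j) k).det ≠ 0 := by
    by_contra hcon
    push Not at hcon
    have h1 := congrArg (coeff 0) hdet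
    rw [coeff_sum, Finset.sum_eq_zero fun f _ => hcon f] at h1
    simp at h1
  set Cm : Matrix (Fin l) (Fin l) (MvPolynomial (Fin l) K) := Matrix.of fun j k => c j (f j) k
    with hCm
  let B : Matrix (Fin l) (Fin l) (MvPolynomial (Fin l) K) :=
    Matrix.of fun j i => (b j : Fin l → MvPolynomial (Fin l) K) i
  have hB : B.det ≠ 0 := by
    intro h0
    obtain ⟨v, hv, hv0⟩ := Matrix.exists_vecMul_eq_zero_iff.mpr h0
    apply hv
    have h1 : ∑ j, v j • b j = 0 := by
      apply Subtype.ext
      rw [AddSubmonoidClass.coe_finsetSum]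
      funext i
      have h2 := congrFun hv0 i
      rw [Finset.sum_apply]
      exact h2
    funext j
    exact Fintype.linearIndependent_iff.mp b.linearIndependent v h1 j
  have hW : Cm * B = Matrix.of fun j i => hc (f j) (b j) i := by
    refine Matrix.ext fun j i => ?_
    rw [Matrix.mul_apply]
    have h1 := b.sum_repr (w j (f j))
    have h2 := congrArg (fun x : LD A => (x : Fin l → MvPolynomial (Fin l) K) i) h1
    simp only [AddSubmonoidClass.coe_finsetSum, Finset.sum_apply] at h2
    exact h2
  have hhom : (Cm.det * B.det).IsHomogeneous (∑ j, f j) := by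
    rw [← Matrix.det_mul, hW, Matrix.det_apply]
    refine IsHomogeneous.sum _ _ _ fun σ _ => ?_
    have h1 : (∏ i, (Matrix.of fun j i => hc (f j) (b j) i) (σ i) i :
        MvPolynomial (Fin l) K).IsHomogeneous (∑ i, f (σ i)) :=
      IsHomogeneous.prod _ _ _ fun i _ => homogeneousComponent_isHomogeneous _ _
    rw [Equiv.sum_comp σ f] at h1
    rcases Int.units_eq_one_or (Equiv.Perm.sign σ) with h | h
    · rw [h, one_smul]
      exact h1
    · rw [h, Units.neg_smul, one_smul]
      exact h1.neg
  have hunit : IsUnit Cm.det := unit_of_hom hhom hB hf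
  have hunit' : IsUnit Cm.transpose.det := by rwa [Matrix.det_transpose]
  refine ⟨f, b.map (Matrix.toLinearEquiv b Cm.transpose hunit'), ?_⟩
  intro j i
  have h1 : (b.map (Matrix.toLinearEquiv b Cm.transpose hunit')) j = w j (f j) := by
    rw [Basis.map_apply]
    have h2 : (Matrix.toLinearEquiv b Cm.transpose hunit') (b j) =
        Matrix.toLin b b Cm.transpose (b j) := rfl
    rw [h2, Matrix.toLin_self]
    exact b.sum_repr (w j (f j))
  rw [h1]
  exact homogeneousComponent_isHomogeneous _ _

end

end Pool.Agent.H10.TF
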